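import Pool.Agent.R762.Mx2

/-!
# The closing condition of the symmetric orbit is polynomial (words of period two in the letters)
-/

set_option autoImplicit false

namespace Pool.Agent.H994.PSC.Rat

open Pool.Agent.R762.Mx Real

/-- functions of `(R, d)` which are rational functions, regular at all admissible parameters;
written with the three variables `R, r, d` of the unnormalised annulus -/
def Rt (g : ℝ → ℝ → ℝ) : Prop :=
  ∃ P Q : MvPolynomial (Fin 3) ℝ, ∀ R r d : ℝ, 0 < r → 0 ≤ d → d < R - r →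
    MvPolynomial.eval ![R, r, d] Q ≠ 0 ∧
      g (R / r) (d / r) = MvPolynomial.eval ![R, r, d] P / MvPolynomial.eval ![R, r, d] Q

theorem adm_of {R r d : ℝ} (hr : 0 < r) (hd : 0 ≤ d) (h : d < R - r) : Adm (R / r) (d / r) := by
  refine ⟨by positivity, ?_⟩
  have : d / r + 1 = (d + r) / r := by field_simp
  rw [this]
  exact div_lt_div_of_pos_right (by linarith) hr

theorem Rt.const (c : ℝ) : Rt (fun _ _ => c) :=
  ⟨MvPolynomial.C c, 1, fun R r d _ _ _ => by simp⟩

theorem Rt.R : Rt (fun R _ => R) :=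
  ⟨MvPolynomial.X 0, MvPolynomial.X 1, fun R r d hr _ _ => by simp [hr.ne']⟩

theorem Rt.d : Rt (fun _ d => d) :=
  ⟨MvPolynomial.X 2, MvPolynomial.X 1, fun R r d hr _ _ => by simp [hr.ne']⟩

theorem Rt.add {f g : ℝ → ℝ → ℝ} (hf : Rt f) (hg : Rt g) : Rt (fun R d => f R d + g R d) := by
  obtain ⟨P, Q, h⟩ := hf
  obtain ⟨P', Q', h'⟩ := hg
  refine ⟨P * Q' + P' * Q, Q * Q', fun R r d hr hd hR => ?_⟩
  obtain ⟨h1, h2⟩ := h R r d hr hd hR
  obtain ⟨h3, h4⟩ := h' R r d hr hd hR
  refine ⟨by simp only [map_mul]; exact mul_ne_zero h1 h3, ?_⟩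
  simp only [map_mul, map_add, h2, h4]
  field_simp

theorem Rt.mul {f g : ℝ → ℝ → ℝ} (hf : Rt f) (hg : Rt g) : Rt (fun R d => f R d * g R d) := by
  obtain ⟨P, Q, h⟩ := hf
  obtain ⟨P', Q', h'⟩ := hg
  refine ⟨P * P', Q * Q', fun R r d hr hd hR => ?_⟩
  obtain ⟨h1, h2⟩ := h R r d hr hd hR
  obtain ⟨h3, h4⟩ := h' R r d hr hd hR
  refine ⟨by simp only [map_mul]; exact mul_ne_zero h1 h3, ?_⟩
  simp only [map_mul, h2, h4]
  field_simp

theorem Rt.sub {f g : ℝ → ℝ → ℝ} (hf : Rt f) (hg : Rt g) : Rt (fun R d => f R d - g R d) := by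
  have := hf.add ((Rt.const (-1)).mul hg)
  simpa [sub_eq_add_neg] using this

theorem Rt.div {f g : ℝ → ℝ → ℝ} (hf : Rt f) (hg : Rt g)
    (h0 : ∀ R d : ℝ, Adm R d → g R d ≠ 0) : Rt (fun R d => f R d / g R d) := by
  obtain ⟨P, Q, h⟩ := hf
  obtain ⟨P', Q', h'⟩ := hg
  refine ⟨P * Q', Q * P', fun R r d hr hd hR => ?_⟩
  obtain ⟨h1, h2⟩ := h R r d hr hd hR
  obtain ⟨h3, h4⟩ := h' R r d hr hd hR
  have h5 := h0 _ _ (adm_of hr hd hR)
  have h6 : MvPolynomial.eval ![R, r, d] P' ≠ 0 := by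
    intro h7; rw [h4, h7, zero_div] at h5; exact h5 rfl
  refine ⟨by simp only [map_mul]; exact mul_ne_zero h1 h6, ?_⟩
  simp only [map_mul, h2, h4]
  field_simp

theorem Rt.congr {f g : ℝ → ℝ → ℝ} (hf : Rt f) (h : ∀ R d : ℝ, Adm R d → g R d = f R d) :
    Rt g := by
  obtain ⟨P, Q, h'⟩ := hf
  refine ⟨P, Q, fun R r d hr hd hR => ?_⟩
  rw [h _ _ (adm_of hr hd hR)]
  exact h' R r d hr hd hR

/-- the start tangent -/
noncomputable def t0 (a : ℕ → Letter) (R d : ℝ) : ℝ := tau R d (a 0) (a 1) 0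

theorem t0_pos (a : ℕ → Letter) {R d : ℝ} (h : Adm R d) : 0 < t0 a R d := tau_pos h _ _ _

theorem Rt.N {c : ℝ → ℝ → ℝ} (hc : Rt c) :
    Rt (fun R d => R ^ 2 - 1 - d ^ 2 - 2 * d * c R d) := by
  have h1 := ((((Rt.R.mul Rt.R).sub (Rt.const 1)).sub (Rt.d.mul Rt.d))).sub
    (((Rt.const 2).mul Rt.d).mul hc)
  refine h1.congr (fun R d _ => ?_)
  ring

theorem Rt.U {c : ℝ → ℝ → ℝ} (hc : Rt c) : Rt (fun R d => R + 1 - d * c R d) :=
  ((Rt.R.add (Rt.const 1)).sub (Rt.d.mul hc))

theorem Rt.t0sq (a : ℕ → Letter) : Rt (fun R d => t0 a R d ^ 2) := by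
  have h1 : Rt (fun _ _ => (1 : ℝ)) := Rt.const 1
  have hN := Rt.N h1
  have hU := Rt.U h1
  have hW : Rt (fun R d => R + 1 + d * 1) := (Rt.R.add (Rt.const 1)).add (Rt.d.mul h1)
  have hn : ∀ R d : ℝ, nn R d 0 = R ^ 2 - 1 - d ^ 2 - 2 * d * 1 := fun R d => by simp [nn]
  have hu : ∀ R d : ℝ, UU R d 0 = R + 1 - d * 1 := fun R d => by simp [UU]
  have hw : ∀ R d : ℝ, WW R d 0 = R + 1 + d * 1 := fun R d => by simp [WW]
  have hrel : ∀ R d : ℝ, Adm R d → rel R d (a 0) (a 1) 0 (t0 a R d) := fun R d h =>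
    tau_rel h.adm' _ _ _
  cases ha : a 0 <;> cases hb : a 1
  · -- c c
    have hK : Rt (fun R d => 4 * (R * KK R d)) := by
      refine ((Rt.const 4).mul (Rt.R.mul (((Rt.R.add (Rt.const 1)).mul
        (Rt.R.add (Rt.const 1))).sub (Rt.d.mul Rt.d)))).congr (fun R d _ => ?_)
      unfold KK; ring
    refine ((hN.mul hN).div hK (fun R d h => ?_)).congr (fun R d h => ?_)
    · have := RK_gt h.adm'
      nlinarith [sq_nonneg d]
    · have h2 := hrel R d h
      rw [ha, hb] at h2
      simp only [rel, sin_zero, mul_zero, sub_zero] at h2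
      have h3 : 0 < R * KK R d := lt_of_le_of_lt (sq_nonneg d) (RK_gt h.adm')
      have h4 : √(R * KK R d) ^ 2 = R * KK R d := sq_sqrt h3.le
      rw [hn] at h2
      rw [eq_div_iff (by positivity), ← h2]
      calc t0 a R d ^ 2 * (4 * (R * KK R d)) = t0 a R d ^ 2 * (4 * √(R * KK R d) ^ 2) := by
            rw [h4]
        _ = _ := by ring
  · -- c s
    refine (hN.div ((Rt.const 2).mul hW) (fun R d h => ?_)).congr (fun R d h => ?_)
    · have := WW_ge h.adm' 0
      rw [hw] at this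
      linarith
    · have h2 := hrel R d h
      rw [ha, hb] at h2
      simp only [rel] at h2
      have h3 := WW_ge h.adm' 0
      rw [hn, hw] at h2
      rw [hw] at h3
      rw [eq_div_iff (by linarith)]
      linarith
  · -- s c
    refine (hN.div ((Rt.const 2).mul hU) (fun R d h => ?_)).congr (fun R d h => ?_)
    · have := UU_ge h.adm' 0
      rw [hu] at this
      linarith
    · have h2 := hrel R d h
      rw [ha, hb] at h2
      simp only [rel, sin_zero, mul_zero, zero_mul, sub_zero] at h2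
      have h3 := UU_ge h.adm' 0
      rw [hn, hu] at h2
      rw [hu] at h3
      rw [eq_div_iff (by linarith)]
      linarith
  · -- s s
    refine hN.congr (fun R d h => ?_)
    have h2 := hrel R d h
    rw [ha, hb] at h2
    simp only [rel, sin_zero, mul_zero, zero_mul, sub_zero] at h2
    rw [hn] at h2
    exact h2

/-- the next tangent, for words of period two in the letters -/
theorem tau_next {R d : ℝ} (h : Adm R d) (A B : Letter) (x : ℝ) :
    (A = .s → B = .s → tau R d B A (TT R d A B x) =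
      tau R d A B x + 2 * d * sin (TT R d A B x)) ∧
    (A = .s → B = .c → tau R d B A (TT R d A B x) = tau R d A B x) ∧
    (A = .c → B = .s → tau R d B A (TT R d A B x) =
      tau R d A B x + 2 * d * sin (TT R d A B x) / UU R d (TT R d A B x)) := by
  have h1 := tau_pos h A B x
  have h2 := tau_pos h B A (TT R d A B x)
  have h3 := tau_rel h.adm' B A (TT R d A B x)
  have h4 : rel R d B A (-(TT R d A B x)) (tau R d A B x) :=
    rel_flip R d B A x _ (tau_rel h.adm' A B x)
  set x' := TT R d A B x with hx'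
  set t := tau R d A B x with ht
  set t' := tau R d B A x' with ht'
  have hW := WW_ge h.adm' x'
  have hU := UU_ge h.adm' x'
  have en : nn R d (-x') = nn R d x' := by simp [nn]
  have eW : WW R d (-x') = WW R d x' := by simp [WW]
  have eU : UU R d (-x') = UU R d x' := by simp [UU]
  refine ⟨?_, ?_, ?_⟩
  · intro hA hB
    rw [hA, hB] at h3 h4
    simp only [rel, en, eW, eU, sin_neg] at h3 h4
    have e : (t' - t - 2 * d * sin x') * (t' + t) = 0 := by linear_combination h3 - h4
    rcases mul_eq_zero.1 e with h5 | h5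
    · linarith
    · linarith
  · intro hA hB
    rw [hA, hB] at h3 h4
    simp only [rel, en, eW, eU, sin_neg] at h3 h4
    have e : (t' - t) * ((t' + t) * (2 * WW R d x')) = 0 := by linear_combination h3 - h4
    rcases mul_eq_zero.1 e with h5 | h5
    · linarith
    · have : 0 < (t' + t) * (2 * WW R d x') := by positivity
      linarith
  · intro hA hB
    rw [hA, hB] at h3 h4
    simp only [rel, en, eW, eU, sin_neg] at h3 h4
    have e : (UU R d x' * (t' - t) - 2 * d * sin x') * (t' + t) = 0 := by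
      linear_combination (1 / 2) * h3 - (1 / 2) * h4
    rcases mul_eq_zero.1 e with h5 | h5
    · have : UU R d x' ≠ 0 := by linarith
      field_simp
      linarith
    · linarith

/-- the state after `i` steps -/
def St (a : ℕ → Letter) (i : ℕ) : Prop :=
  ∃ c σ θ : ℝ → ℝ → ℝ, Rt c ∧ Rt σ ∧ Rt θ ∧ ∀ R d : ℝ, Adm R d →
    cos (orb R d a 0 i) = c R d ∧ sin (orb R d a 0 i) = t0 a R d * σ R d ∧
    tau R d (a i) (a (i + 1)) (orb R d a 0 i) = t0 a R d * θ R d

theorem state (a : ℕ → Letter) (ha : ∀ i, a (i + 2) = a i) (i : ℕ) : St a i := by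
  induction i with
  | zero =>
    refine ⟨fun _ _ => 1, fun _ _ => 0, fun _ _ => 1, Rt.const 1, Rt.const 0, Rt.const 1,
      fun R d _ => ⟨?_, ?_, ?_⟩⟩
    · simp [orb]
    · simp [orb]
    · simp [orb, t0]
  | succ i ih =>
    obtain ⟨c, σ, θ, hc, hσ, hθ, hst⟩ := ih
    have hD := Rt.t0sq a
    set Δ : ℝ → ℝ → ℝ := fun R d => t0 a R d ^ 2 with hΔ
    have hden : Rt (fun R d => 1 + Δ R d * (θ R d * θ R d)) :=
      (Rt.const 1).add (hD.mul (hθ.mul hθ))
    have hden0 : ∀ R d : ℝ, Adm R d → 1 + Δ R d * (θ R d * θ R d) ≠ 0 := by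
      intro R d _
      have : 0 ≤ Δ R d * (θ R d * θ R d) := mul_nonneg (sq_nonneg _) (mul_self_nonneg _)
      linarith
    have hm : Rt (fun R d => 1 - Δ R d * (θ R d * θ R d)) :=
      (Rt.const 1).sub (hD.mul (hθ.mul hθ))
    set c' : ℝ → ℝ → ℝ := fun R d => (c R d * (1 - Δ R d * (θ R d * θ R d)) -
      2 * (Δ R d * (θ R d * σ R d))) / (1 + Δ R d * (θ R d * θ R d)) with hc'
    set σ' : ℝ → ℝ → ℝ := fun R d => (σ R d * (1 - Δ R d * (θ R d * θ R d)) +
      2 * (θ R d * c R d)) / (1 + Δ R d * (θ R d * θ R d)) with hσ'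
    have hc'R : Rt c' :=
      ((hc.mul hm).sub ((Rt.const 2).mul (hD.mul (hθ.mul hσ)))).div hden hden0
    have hσ'R : Rt σ' :=
      ((hσ.mul hm).add ((Rt.const 2).mul (hθ.mul hc))).div hden hden0
    have hcos : ∀ R d : ℝ, Adm R d → cos (orb R d a 0 (i + 1)) = c' R d := by
      intro R d h
      obtain ⟨h1, h2, h3⟩ := hst R d h
      show cos (TT R d (a i) (a (i + 1)) (orb R d a 0 i)) = _
      unfold TT
      rw [cos_step, h1, h2, h3]
      simp only [hc', hΔ]
      congr 1 <;> ring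
    have hsin : ∀ R d : ℝ, Adm R d → sin (orb R d a 0 (i + 1)) = t0 a R d * σ' R d := by
      intro R d h
      obtain ⟨h1, h2, h3⟩ := hst R d h
      show sin (TT R d (a i) (a (i + 1)) (orb R d a 0 i)) = _
      unfold TT
      rw [sin_step, h1, h2, h3]
      simp only [hσ', hΔ]
      rw [mul_div_assoc']
      congr 1 <;> ring
    have hnx := fun (R d : ℝ) (h : Adm R d) => tau_next h (a i) (a (i + 1)) (orb R d a 0 i)
    have e2 : a (i + 1 + 1) = a i := ha i
    have hN := Rt.N hc'R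
    have hU := Rt.U hc'R
    cases hA : a i <;> cases hB : a (i + 1)
    · -- c c
      have hγ : Rt (fun R d => (R ^ 2 - 1 - d ^ 2 - 2 * d * 1) / (2 * Δ R d)) :=
        (Rt.N (Rt.const 1)).div ((Rt.const 2).mul hD) (fun R d h => by
          have := t0_pos a h
          have : 0 < Δ R d := by simp only [hΔ]; positivity
          positivity)
      have hG : ∀ R d : ℝ, Adm R d → t0 a R d * ((R ^ 2 - 1 - d ^ 2 - 2 * d * 1) / (2 * Δ R d)) =
          √(R * KK R d) := by
        intro R d h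
        have h0 := t0_pos a h
        have hcc : a 0 = .c ∧ a 1 = .c := by
          have key : ∀ j, (a j = .c ∧ a (j + 1) = .c) → (a 0 = .c ∧ a 1 = .c) := by
            intro j
            induction j with
            | zero => exact id
            | succ j ih =>
              intro hj
              apply ih
              refine ⟨?_, hj.1⟩
              rw [← ha j]; exact hj.2
          exact key i ⟨hA, hB⟩
        have h2 : rel R d (a 0) (a 1) 0 (t0 a R d) := tau_rel h.adm' _ _ _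
        rw [hcc.1, hcc.2] at h2
        simp only [rel, sin_zero, mul_zero, sub_zero, nn, cos_zero] at h2
        simp only [hΔ]
        rw [← h2]
        field_simp
      have hpos : ∀ R d : ℝ, Adm R d →
          (R ^ 2 - 1 - d ^ 2 - 2 * d * 1) / (2 * Δ R d) - d * σ' R d ≠ 0 := by
        intro R d h h5
        have h0 := t0_pos a h
        have h6 := Gd_pos h.adm' (orb R d a 0 (i + 1))
        rw [hsin R d h, ← hG R d h] at h6
        have : t0 a R d * ((R ^ 2 - 1 - d ^ 2 - 2 * d * 1) / (2 * Δ R d) - d * σ' R d) = 0 := by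
          rw [h5, mul_zero]
        nlinarith
      refine ⟨c', σ', fun R d => (R ^ 2 - 1 - d ^ 2 - 2 * d * c' R d) /
        (2 * (Δ R d * ((R ^ 2 - 1 - d ^ 2 - 2 * d * 1) / (2 * Δ R d) - d * σ' R d))),
        hc'R, hσ'R, ?_, fun R d h => ⟨hcos R d h, hsin R d h, ?_⟩⟩
      · refine hN.div ((Rt.const 2).mul (hD.mul (hγ.sub (Rt.d.mul hσ'R)))) (fun R d h => ?_)
        have := t0_pos a h
        have h7 : Δ R d ≠ 0 := by simp only [hΔ]; positivity
        exact mul_ne_zero two_ne_zero (mul_ne_zero h7 (hpos R d h))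
      · have h0 := t0_pos a h
        have h7 : Δ R d ≠ 0 := by simp only [hΔ]; positivity
        have h8 := hpos R d h
        rw [e2, hA, hB]
        simp only [tau]
        rw [hsin R d h, ← hG R d h]
        have h9 : nn R d (orb R d a 0 (i + 1)) = R ^ 2 - 1 - d ^ 2 - 2 * d * c' R d := by
          unfold nn; rw [hcos R d h]
        rw [h9]
        have h10 : Δ R d = t0 a R d ^ 2 := rfl
        generalize (R ^ 2 - 1 - d ^ 2 - 2 * d * 1) / (2 * Δ R d) = γ at h8 ⊢
        rw [h10]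
        have h11 : t0 a R d * γ - d * (t0 a R d * σ' R d) = t0 a R d * (γ - d * σ' R d) := by ring
        rw [h11]
        field_simp
    · -- c s
      refine ⟨c', σ', fun R d => θ R d + 2 * (d * σ' R d) / (R + 1 - d * c' R d),
        hc'R, hσ'R, ?_, fun R d h => ⟨hcos R d h, hsin R d h, ?_⟩⟩
      · refine hθ.add ((((Rt.const 2).mul (Rt.d.mul hσ'R))).div hU (fun R d h => ?_))
        have := UU_ge h.adm' (orb R d a 0 (i + 1))
        unfold UU at this
        rw [hcos R d h] at this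
        linarith
      · rw [e2]
        have h1 := (hnx R d h).2.2 hA hB
        have h2 : orb R d a 0 (i + 1) = TT R d (a i) (a (i + 1)) (orb R d a 0 i) := rfl
        rw [← h2] at h1
        rw [h1, (hst R d h).2.2, hsin R d h]
        unfold UU
        rw [hcos R d h]
        ring
    · -- s c
      refine ⟨c', σ', θ, hc'R, hσ'R, hθ, fun R d h => ⟨hcos R d h, hsin R d h, ?_⟩⟩
      rw [e2]
      have h1 := (hnx R d h).2.1 hA hB
      have h2 : orb R d a 0 (i + 1) = TT R d (a i) (a (i + 1)) (orb R d a 0 i) := rfl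
      rw [← h2] at h1
      rw [h1, (hst R d h).2.2]
    · -- s s
      refine ⟨c', σ', fun R d => θ R d + 2 * (d * σ' R d),
        hc'R, hσ'R, hθ.add ((Rt.const 2).mul (Rt.d.mul hσ'R)),
        fun R d h => ⟨hcos R d h, hsin R d h, ?_⟩⟩
      rw [e2]
      have h1 := (hnx R d h).1 hA hB
      have h2 : orb R d a 0 (i + 1) = TT R d (a i) (a (i + 1)) (orb R d a 0 i) := rfl
      rw [← h2] at h1
      rw [h1, (hst R d h).2.2, hsin R d h]
      ring

/-- **polynomial closing condition** -/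
theorem closing_poly (a : ℕ → Letter) (ha : ∀ i, a (i + 2) = a i) (n : ℕ) :
    ∃ f : MvPolynomial (Fin 3) ℝ, ∀ R r d : ℝ, 0 < r → 0 ≤ d → d < R - r →
      (MvPolynomial.eval ![R, r, d] f = 0 ↔ cos (orb (R / r) (d / r) a 0 n) = 1) := by
  obtain ⟨c, σ, θ, ⟨P, Q, hPQ⟩, -, -, hst⟩ := state a ha n
  refine ⟨P - Q, fun R r d hr hd hR => ?_⟩
  obtain ⟨h1, h2⟩ := hPQ R r d hr hd hR
  rw [(hst _ _ (adm_of hr hd hR)).1, h2, map_sub, div_eq_one_iff_eq h1, sub_eq_zero]

end Pool.Agent.H994.PSC.Rat
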